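import Mathlib

/-!
# MP_f7d7fe_co: primitive lattice tilings with `n` tiles exist for every `n`

`n` prime: the cosets of a subgroup of prime index.  Even `n ≥ 4`: in `F_2^3 × Z_r`, `r = (n-2)/2`, two lines times `Z_r`
and in every layer one of two pairings of the remaining four points.  Odd `n ≥ 7`: in `F_2^4 × Z_r`, `r = (n-5)/2`, a plane
and four lines times `Z_r`, and in every layer one of two pairings of the remaining four points.
-/

set_option autoImplicit false

namespace Pool.Agent.Results.MP_f7d7fe_co.AllN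

/-- the lattice translate `v + L` -/
def translate {d : ℕ} (v : Fin d → ℤ) (L : AddSubgroup (Fin d → ℤ)) : Set (Fin d → ℤ) := {x | x - v ∈ L}

/-- the `n` translates `v i + L i` (with `L i` of finite index) form a lattice tiling of `ℤ^d` -/
def IsTiling {d n : ℕ} (v : Fin n → Fin d → ℤ) (L : Fin n → AddSubgroup (Fin d → ℤ)) : Prop :=
  (∀ i, (L i).FiniteIndex) ∧ (∀ i j, i ≠ j → Disjoint (translate (v i) (L i)) (translate (v j) (L j))) ∧
    ⋃ i, translate (v i) (L i) = Set.univ

/-- the tiling splits: the index set is partitioned (by the surjection `c`) into `k ≥ 2` nonempty blocks, at least one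
of which has at least two elements, such that the union of each block is a single lattice translate -/
def Splits {d n : ℕ} (v : Fin n → Fin d → ℤ) (L : Fin n → AddSubgroup (Fin d → ℤ)) : Prop :=
  ∃ (k : ℕ) (c : Fin n → Fin k), 2 ≤ k ∧ Function.Surjective c ∧ (∃ i j, i ≠ j ∧ c i = c j) ∧
    ∀ q : Fin k, ∃ (w : Fin d → ℤ) (M : AddSubgroup (Fin d → ℤ)), M.FiniteIndex ∧
      (⋃ i ∈ {i | c i = q}, translate (v i) (L i)) = translate w M

/-! ## cosets -/

/-- `U` is a coset of a subgroup -/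
def IsC {G : Type*} [AddCommGroup G] (U : Set G) : Prop :=
  U.Nonempty ∧ ∀ x ∈ U, ∀ y ∈ U, ∀ z ∈ U, x - y + z ∈ U

theorem IsC.exists_subgroup {G : Type*} [AddCommGroup G] {U : Set G} (h : IsC U) :
    ∃ (w : G) (H : AddSubgroup G), U = {x | x - w ∈ H} := by
  obtain ⟨⟨w, hw⟩, hc⟩ := h
  refine ⟨w, { carrier := {h | h + w ∈ U}
               zero_mem' := by simpa using hw
               add_mem' := ?_
               neg_mem' := ?_ }, ?_⟩
  · intro a b ha hb
    have := hc _ ha _ hw _ hb
    show a + b + w ∈ U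
    have e : a + w - w + (b + w) = a + b + w := by abel
    rwa [e] at this
  · intro a ha
    have := hc _ hw _ ha _ hw
    show -a + w ∈ U
    have e : w - (a + w) + w = -a + w := by abel
    rwa [e] at this
  · ext x
    show x ∈ U ↔ (x - w) + w ∈ U
    rw [sub_add_cancel]

/-- a labelling whose fibres are cosets and such that no union of at least two, but not all, fibres is a coset -/
def Prim {G ι : Type*} [AddCommGroup G] (lab : G → ι) : Prop :=
  (∀ i, IsC {x | lab x = i}) ∧
    ∀ J : Set ι, (∃ a ∈ J, ∃ b ∈ J, a ≠ b) → (∃ a, a ∉ J) → ¬ IsC {x | lab x ∈ J}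

/-- transfer to `ℤ^d` -/
theorem tiling_of_prim {G ι : Type} [AddCommGroup G] [Finite G] [Fintype ι] (lab : G → ι) (h : Prim lab) :
    ∃ d : ℕ, 1 ≤ d ∧ ∃ (v : Fin (Fintype.card ι) → Fin d → ℤ)
      (L : Fin (Fintype.card ι) → AddSubgroup (Fin d → ℤ)), IsTiling v L ∧ ¬ Splits v L := by
  classical
  have := Fintype.ofFinite G
  set d := Fintype.card G with hd
  let eG := Fintype.equivFin G
  -- the projection
  let π : (Fin d → ℤ) →+ G :=
    { toFun := fun x => ∑ j, x j • eG.symm j
      map_zero' := by simp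
      map_add' := fun x y => by simp [add_smul, Finset.sum_add_distrib] }
  have hπ : Function.Surjective π := by
    intro g
    refine ⟨Pi.single (eG g) 1, ?_⟩
    show ∑ j, (Pi.single (eG g) (1 : ℤ) : Fin d → ℤ) j • eG.symm j = g
    rw [Finset.sum_eq_single (eG g)]
    · simp
    · intro j _ hj
      simp [hj]
    · intro hn; exact absurd (Finset.mem_univ _) hn
  have hsub : ∀ i : ι, ∃ (w : G) (H : AddSubgroup G), {x | lab x = i} = {x | x - w ∈ H} :=
    fun i => (h.1 i).exists_subgroup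
  choose w H hwH using hsub
  choose v hv using fun i => hπ (w i)
  let e := Fintype.equivFin ι
  have htile : ∀ i : ι, translate (v i) ((H i).comap π) = {x | lab (π x) = i} := by
    intro i
    ext x
    have : (π x ∈ {x | lab x = i}) ↔ (π x ∈ {x | x - w i ∈ H i}) := by rw [hwH i]
    show π (x - v i) ∈ H i ↔ lab (π x) = i
    rw [map_sub, hv]
    exact this.symm
  refine ⟨d, Fintype.card_pos_iff.2 ⟨0⟩, fun i => v (e.symm i), fun i => (H (e.symm i)).comap π, ⟨?_, ?_, ?_⟩, ?_⟩
  · intro i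
    show ((H (e.symm i)).comap π).FiniteIndex
    refine ⟨?_⟩
    rw [AddSubgroup.index_comap_of_surjective _ hπ]
    exact AddSubgroup.FiniteIndex.index_ne_zero
  · intro i j hij
    rw [htile, htile, Set.disjoint_left]
    intro x hx hx'
    exact hij (e.symm.injective (hx.symm.trans hx'))
  · rw [Set.eq_univ_iff_forall]
    intro x
    rw [Set.mem_iUnion]
    refine ⟨e (lab (π x)), ?_⟩
    rw [htile]
    simp
  · rintro ⟨k, c, hk, hcs, ⟨i0, j0, hij, hc0⟩, hblocks⟩
    obtain ⟨wq, M, -, hM⟩ := hblocks (c i0)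
    refine h.2 {a | c (e a) = c i0} ?_ ?_ ?_
    · refine ⟨e.symm i0, by simp, e.symm j0, ?_, fun hh => hij (e.symm.injective hh)⟩
      simp [hc0]
    · obtain ⟨q, hq⟩ : ∃ q : Fin k, q ≠ c i0 := by
        have : Nontrivial (Fin k) := Fin.nontrivial_iff_two_le.2 hk
        exact exists_ne _
      obtain ⟨i, hi⟩ := hcs q
      refine ⟨e.symm i, ?_⟩
      simp [hi, hq]
    · have hU : ∀ x : Fin d → ℤ, c (e (lab (π x))) = c i0 ↔ x - wq ∈ M := by
        intro x
        have h1 : (x ∈ ⋃ i ∈ {i | c i = c i0}, translate (v (e.symm i)) ((H (e.symm i)).comap π)) ↔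
            x ∈ translate wq M := by rw [hM]
        rw [Set.mem_iUnion₂] at h1
        constructor
        · intro hx
          refine h1.1 ⟨e (lab (π x)), hx, ?_⟩
          rw [htile]; simp
        · intro hx
          obtain ⟨i, hi, hx'⟩ := h1.2 hx
          rw [htile] at hx'
          have : lab (π x) = e.symm i := hx'
          rw [this]; simpa using hi
      constructor
      · obtain ⟨⟨x, hx⟩, -⟩ := h.1 (e.symm i0)
        refine ⟨x, ?_⟩
        show c (e (lab x)) = c i0
        rw [show lab x = e.symm i0 from hx]; simp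
      · intro x hx y hy z hz
        obtain ⟨x', rfl⟩ := hπ x
        obtain ⟨y', rfl⟩ := hπ y
        obtain ⟨z', rfl⟩ := hπ z
        have e1 := (hU x').1 hx
        have e2 := (hU y').1 hy
        have e3 := (hU z').1 hz
        show c (e (lab (π x' - π y' + π z'))) = c i0
        rw [← map_sub, ← map_add, hU]
        have : x' - y' + z' - wq = (x' - wq) - (y' - wq) + (z' - wq) := by abel
        rw [this]
        exact M.add_mem (M.sub_mem e1 e2) e3

/-! ## prime number of tiles (and one tile) -/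

theorem prim_prime (p : ℕ) [Fact p.Prime] : Prim (fun x : ZMod p => x) := by
  constructor
  · intro i
    refine ⟨⟨i, rfl⟩, ?_⟩
    rintro x rfl y hy z hz
    have h1 : y = x := hy
    have h2 : z = x := hz
    show x - y + z = x
    rw [h1, h2]; abel
  · rintro J ⟨a, ha, b, hb, hab⟩ ⟨c, hc⟩ ⟨-, hJ⟩
    -- the coset contains `b + k (a - b)` for all `k`
    have key : ∀ k : ℕ, b + k • (a - b) ∈ J := by
      intro k
      induction k with
      | zero => simpa using hb
      | succ k ih =>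
        have := hJ a ha b hb _ ih
        have e : a - b + (b + k • (a - b)) = b + (k + 1) • (a - b) := by
          rw [add_smul, one_smul]; abel
        rwa [e] at this
    apply hc
    have hab' : a - b ≠ 0 := sub_ne_zero.2 hab
    have := key ((c - b) / (a - b)).val
    rw [nsmul_eq_mul, ZMod.natCast_val, ZMod.cast_id', id, div_mul_cancel₀ _ hab'] at this
    simpa using this

theorem prim_one : Prim (fun _ : ZMod 1 => ()) := by
  constructor
  · intro i
    exact ⟨⟨0, rfl⟩, fun _ _ _ _ _ _ => rfl⟩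
  · rintro J ⟨a, -, b, -, hab⟩
    exact absurd rfl hab

/-! ## the layered construction -/

/-- a coset of a nontrivial subgroup of `Z_r` meets both halves -/
theorem both_halves (r : ℕ) [NeZero r] (I : Set (ZMod r)) (hI : IsC I) (h2 : ∃ a ∈ I, ∃ b ∈ I, a ≠ b) :
    (∃ i ∈ I, i.val < r / 2) ∧ ∃ i ∈ I, ¬ i.val < r / 2 := by
  classical
  obtain ⟨a, ha, b, hb, hab⟩ := h2
  -- minimal nonzero difference
  set D : Finset (ZMod r) := Finset.univ.filter fun h => h ≠ 0 ∧ ∃ x ∈ I, ∃ y ∈ I, h = x - y with hD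
  have hDne : D.Nonempty := ⟨a - b, by simp [hD, sub_ne_zero.2 hab]; exact ⟨a, ha, b, hb, rfl⟩⟩
  obtain ⟨h, hh, hmin⟩ := Finset.exists_min_image D ZMod.val hDne
  obtain ⟨hh0, x, hx, y, hy, hxy⟩ := (Finset.mem_filter.1 hh).2
  have hpos : 0 < h.val := Nat.pos_of_ne_zero fun h0 => hh0 ((ZMod.val_eq_zero h).1 h0)
  have hneg : h.val ≤ (-h).val := by
    apply hmin
    simp only [hD, Finset.mem_filter, Finset.mem_univ, true_and]
    exact ⟨neg_ne_zero.2 hh0, y, hy, x, hx, by rw [hxy]; abel⟩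
  have hlt : h.val < r := ZMod.val_lt h
  have hhalf : h.val ≤ r / 2 := by
    rw [ZMod.neg_val, if_neg hh0] at hneg
    omega
  have hadd : ∀ i ∈ I, i + h ∈ I := by
    intro i hi
    have := hI.2 x hx y hy i hi
    rwa [← hxy, add_comm] at this
  have hsubI : ∀ i ∈ I, i - h ∈ I := by
    intro i hi
    have := hI.2 y hy x hx i hi
    have e : y - x + i = i - h := by rw [hxy]; abel
    rwa [e] at this
  have hIfin : (Finset.univ.filter fun i => i ∈ I).Nonempty := ⟨a, by simpa using ha⟩
  obtain ⟨i, hi, hi'⟩ := Finset.exists_min_image _ ZMod.val hIfin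
  obtain ⟨j, hj, hj'⟩ := Finset.exists_max_image _ ZMod.val hIfin
  have hi : i ∈ I := by simpa using hi
  have hj : j ∈ I := by simpa using hj
  refine ⟨⟨i, hi, ?_⟩, ⟨j, hj, ?_⟩⟩
  · by_contra hcon
    have hle : h.val ≤ i.val := by omega
    have h1 := hi' (i - h) (by simpa using hsubI i hi)
    rw [ZMod.val_sub hle] at h1
    omega
  · intro hcon
    have hlt2 : j.val + h.val < r := by omega
    have h1 := hj' (j + h) (by simpa using hadd j hj)
    rw [ZMod.val_add_of_lt hlt2] at h1
    omega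

/-- the labelling of `B × Z_r` -/
def layer {B κ : Type*} (f f' : B → κ ⊕ Bool) (r : ℕ) (x : B × ZMod r) : κ ⊕ (ZMod r × Bool) :=
  match (if x.2.val < r / 2 then f x.1 else f' x.1) with
  | Sum.inl a => Sum.inl a
  | Sum.inr b => Sum.inr (x.2, b)

theorem prim_layer {B κ : Type*} [AddCommGroup B] [Nonempty κ] (f f' : B → κ ⊕ Bool) (hf : Prim f) (hf' : Prim f')
    (hsame : ∀ x a, f x = Sum.inl a ↔ f' x = Sum.inl a)
    (hpar : ∀ b b' : Bool, ¬ ∀ x y z, f x = Sum.inr b → f y = Sum.inr b → f' z = Sum.inr b' →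
      f' (x - y + z) = Sum.inr b') (r : ℕ) [NeZero r] : Prim (layer f f' r) := by
  classical
  -- the labelling of a layer
  let g : ZMod r → B → κ ⊕ Bool := fun i => if i.val < r / 2 then f else f'
  have hg : ∀ i, Prim (g i) := by
    intro i
    show Prim (if i.val < r / 2 then f else f')
    split_ifs
    · exact hf
    · exact hf'
  have hgl : ∀ i x a, g i x = Sum.inl a ↔ f x = Sum.inl a := by
    intro i x a
    show (if i.val < r / 2 then f else f') x = _ ↔ _
    split_ifs
    · exact Iff.rfl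
    · exact (hsame x a).symm
  have hlayer : ∀ x i, layer f f' r (x, i) = match g i x with
      | Sum.inl a => Sum.inl a
      | Sum.inr b => Sum.inr (i, b) := by
    intro x i
    show (match (if i.val < r / 2 then f x else f' x) with
      | Sum.inl a => Sum.inl a
      | Sum.inr b => Sum.inr (i, b)) = _
    have : (if i.val < r / 2 then f x else f' x) = g i x := by
      show _ = (if i.val < r / 2 then f else f') x
      split_ifs <;> rfl
    rw [this]
  have hl1 : ∀ x i a, layer f f' r (x, i) = Sum.inl a ↔ f x = Sum.inl a := by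
    intro x i a
    rw [hlayer, ← hgl i x a]
    cases g i x with
    | inl c => simp
    | inr c => simp
  have hl2 : ∀ x i j b, layer f f' r (x, i) = Sum.inr (j, b) ↔ j = i ∧ g i x = Sum.inr b := by
    intro x i j b
    rw [hlayer]
    cases g i x with
    | inl c => simp
    | inr c => simp [eq_comm]
  constructor
  · rintro (a | ⟨j, b⟩)
    · obtain ⟨⟨x0, hx0⟩, hc⟩ := hf.1 (Sum.inl a)
      constructor
      · exact ⟨(x0, 0), (hl1 x0 0 a).2 hx0⟩
      · rintro ⟨x, i⟩ hx ⟨y, j⟩ hy ⟨z, k⟩ hz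
        exact (hl1 _ _ a).2 (hc x ((hl1 x i a).1 hx) y ((hl1 y j a).1 hy) z ((hl1 z k a).1 hz))
    · obtain ⟨⟨x0, hx0⟩, hc⟩ := (hg j).1 (Sum.inr b)
      constructor
      · exact ⟨(x0, j), (hl2 x0 j j b).2 ⟨rfl, hx0⟩⟩
      · rintro ⟨x, i1⟩ hx ⟨y, i2⟩ hy ⟨z, i3⟩ hz
        obtain ⟨e1, h1⟩ := (hl2 _ _ _ _).1 hx
        obtain ⟨e2, h2⟩ := (hl2 _ _ _ _).1 hy
        obtain ⟨e3, h3⟩ := (hl2 _ _ _ _).1 hz
        subst e1; subst e2; subst e3
        refine (hl2 _ _ _ _).2 ⟨by simp, ?_⟩
        have := hc x h1 y h2 z h3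
        have e : j - j + j = j := by abel
        show g (j - j + j) (x - y + z) = Sum.inr b
        rw [e]; exact this
  · rintro J ⟨l1, hl1J, l2, hl2J, hl12⟩ ⟨l3, hl3J⟩ ⟨-, hJ⟩
    -- restriction to a layer
    have hres : ∀ i : ZMod r, ∀ x y z : B, layer f f' r (x, i) ∈ J → layer f f' r (y, i) ∈ J →
        layer f f' r (z, i) ∈ J → layer f f' r (x - y + z, i) ∈ J := by
      intro i x y z hx hy hz
      have := hJ _ hx _ hy _ hz
      have e : ((x, i) - (y, i) + (z, i) : B × ZMod r) = (x - y + z, i) := by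
        ext
        · rfl
        · show i - i + i = i
          abel
      rwa [e] at this
    -- labels present in a layer
    let K : ZMod r → Set (κ ⊕ Bool) := fun i => {l | match l with
      | Sum.inl a => Sum.inl a ∈ J
      | Sum.inr b => Sum.inr (i, b) ∈ J}
    have hK : ∀ i x, layer f f' r (x, i) ∈ J ↔ g i x ∈ K i := by
      intro i x
      rw [hlayer]
      cases hgx : g i x with
      | inl c => exact Iff.rfl
      | inr c => exact Iff.rfl
    -- every layer contains at most one label or all labels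
    have hone : ∀ i, (∃ l, l ∈ K i) → (∃ a ∈ K i, ∃ b ∈ K i, a ≠ b) → ∀ l, l ∈ K i := by
      intro i ⟨l, hl⟩ h2 l'
      by_contra hl'
      refine (hg i).2 (K i) h2 ⟨l', hl'⟩ ⟨?_, ?_⟩
      · obtain ⟨⟨x, hx⟩, -⟩ := (hg i).1 l
        refine ⟨x, ?_⟩
        show g i x ∈ K i
        rw [show g i x = l from hx]; exact hl
      · intro x hx y hy z hz
        rw [Set.mem_ofPred_eq] at hx hy hz ⊢
        rw [← hK] at hx hy hz ⊢
        exact hres i x y z hx hy hz
    by_cases hcase : ∃ a, Sum.inl a ∈ J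
    · obtain ⟨a, ha⟩ := hcase
      obtain ⟨⟨x0, hx0⟩, -⟩ := hf.1 (Sum.inl a)
      have hx0J : ∀ i, layer f f' r (x0, i) ∈ J := by
        intro i; rw [(hl1 x0 i a).2 hx0]; exact ha
      -- invariance under translations of the second coordinate
      have hinv : ∀ x i j, layer f f' r (x, i) ∈ J → layer f f' r (x, j) ∈ J := by
        intro x i j hx
        have := hJ _ hx _ (hx0J i) _ (hx0J j)
        have e : ((x, i) - (x0, i) + (x0, j) : B × ZMod r) = (x, j) := by
          ext
          · show x - x0 + x0 = x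
            abel
          · show i - i + j = j
            abel
        rwa [e] at this
      -- points of all labels
      have hpt : ∀ l : κ ⊕ (ZMod r × Bool), ∃ x i, layer f f' r (x, i) = l := by
        rintro (c | ⟨j, b⟩)
        · obtain ⟨⟨x, hx⟩, -⟩ := hf.1 (Sum.inl c)
          exact ⟨x, 0, (hl1 x 0 c).2 hx⟩
        · obtain ⟨⟨x, hx⟩, -⟩ := (hg j).1 (Sum.inr b)
          exact ⟨x, j, (hl2 x j j b).2 ⟨rfl, hx⟩⟩
      by_cases hall : ∀ l, l ∈ K 0
      · -- everything
        obtain ⟨x, i, hx⟩ := hpt l3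
        apply hl3J
        rw [← hx]
        exact hinv x 0 i ((hK 0 x).2 (hall _))
      · -- only the label `a`
        have hsing : ∀ l ∈ K 0, l = Sum.inl a := by
          intro l hl
          by_contra hne
          exact hall (hone 0 ⟨l, hl⟩ ⟨l, hl, Sum.inl a, ha, hne⟩)
        have hal : ∀ l ∈ J, l = Sum.inl a := by
          intro l hl
          obtain ⟨x, i, hx⟩ := hpt l
          have h1 : layer f f' r (x, 0) ∈ J := hinv x i 0 (by rw [hx]; exact hl)
          have h2 := hsing _ ((hK 0 x).1 h1)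
          have h3 : f x = Sum.inl a := (hgl 0 x a).1 h2
          rw [← hx, (hl1 x i a).2 h3]
        exact hl12 ((hal l1 hl1J).trans (hal l2 hl2J).symm)
    · -- no fixed part
      have hnofix : ∀ a, Sum.inl a ∉ J := fun a ha => hcase ⟨a, ha⟩
      -- at most one label in each layer
      have huniq : ∀ i b b', Sum.inr (i, b) ∈ J → Sum.inr (i, b') ∈ J → b = b' := by
        intro i b b' hb hb'
        by_contra hne
        have := hone i ⟨Sum.inr b, hb⟩ ⟨Sum.inr b, hb, Sum.inr b', hb', fun h => hne (Sum.inr.inj h)⟩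
        obtain ⟨c⟩ := ‹Nonempty κ›
        exact hnofix c (this (Sum.inl c))
      -- the layers that are present
      set I : Set (ZMod r) := {i | ∃ b, Sum.inr (i, b) ∈ J} with hI
      have hpt : ∀ i b, ∃ x, g i x = Sum.inr b := by
        intro i b
        obtain ⟨⟨x, hx⟩, -⟩ := (hg i).1 (Sum.inr b)
        exact ⟨x, hx⟩
      have hget : ∀ x i, layer f f' r (x, i) ∈ J → ∃ b, Sum.inr (i, b) ∈ J ∧ g i x = Sum.inr b := by
        intro x i hx
        rw [hlayer] at hx
        cases hgx : g i x with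
        | inl c => rw [hgx] at hx; exact absurd hx (hnofix c)
        | inr c => rw [hgx] at hx; exact ⟨c, hx, rfl⟩
      have hIC : IsC I := by
        constructor
        · cases l1 with
          | inl c => exact absurd hl1J (hnofix c)
          | inr c => exact ⟨c.1, c.2, hl1J⟩
        · rintro i ⟨b1, hb1⟩ j ⟨b2, hb2⟩ k ⟨b3, hb3⟩
          obtain ⟨x1, hx1⟩ := hpt i b1
          obtain ⟨x2, hx2⟩ := hpt j b2
          obtain ⟨x3, hx3⟩ := hpt k b3
          have h1 : layer f f' r (x1, i) ∈ J := by rw [(hl2 x1 i i b1).2 ⟨rfl, hx1⟩]; exact hb1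
          have h2 : layer f f' r (x2, j) ∈ J := by rw [(hl2 x2 j j b2).2 ⟨rfl, hx2⟩]; exact hb2
          have h3 : layer f f' r (x3, k) ∈ J := by rw [(hl2 x3 k k b3).2 ⟨rfl, hx3⟩]; exact hb3
          obtain ⟨b, hb, -⟩ := hget _ _ (hJ _ h1 _ h2 _ h3)
          exact ⟨b, hb⟩
      have hI2 : ∃ a ∈ I, ∃ b ∈ I, a ≠ b := by
        cases l1 with
        | inl c => exact absurd hl1J (hnofix c)
        | inr c =>
          cases l2 with
          | inl c' => exact absurd hl2J (hnofix c')
          | inr c' =>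
            refine ⟨c.1, ⟨c.2, hl1J⟩, c'.1, ⟨c'.2, hl2J⟩, fun h => hl12 ?_⟩
            obtain ⟨i, b⟩ := c
            obtain ⟨i', b'⟩ := c'
            simp only at h
            subst h
            rw [huniq i b b' hl1J hl2J]
      obtain ⟨⟨i, ⟨b, hb⟩, hic⟩, ⟨j, ⟨b', hb'⟩, hjc⟩⟩ := both_halves r I hIC hI2
      apply hpar b b'
      intro x y z hx hy hz
      have hgi : g i = f := if_pos hic
      have hgj : g j = f' := if_neg hjc
      have h1 : layer f f' r (x, i) ∈ J := by rw [(hl2 x i i b).2 ⟨rfl, by rw [hgi]; exact hx⟩]; exact hb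
      have h2 : layer f f' r (y, i) ∈ J := by rw [(hl2 y i i b).2 ⟨rfl, by rw [hgi]; exact hy⟩]; exact hb
      have h3 : layer f f' r (z, j) ∈ J := by rw [(hl2 z j j b').2 ⟨rfl, by rw [hgj]; exact hz⟩]; exact hb'
      have h4 := hJ _ h1 _ h2 _ h3
      have e : ((x, i) - (y, i) + (z, j) : B × ZMod r) = (x - y + z, j) := by
        ext
        · rfl
        · show i - i + j = j
          abel
      rw [e] at h4
      obtain ⟨b'', hb'', h5⟩ := hget _ _ h4
      rw [hgj] at h5
      rw [h5, huniq j b'' b' hb'' hb']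

/-! ## the two bases -/

theorem prim_of_check {B : Type*} [AddCommGroup B] (N : ℕ) (t : B → Fin N) (h1 : ∀ i, ∃ x, t x = i)
    (h2 : ∀ x y z, t x = t y → t z = t y → t (x - y + z) = t y)
    (h3 : ∀ m : Fin (2 ^ N), (∃ a b : Fin N, a ≠ b ∧ m.val.testBit a = true ∧ m.val.testBit b = true) →
      (∃ a : Fin N, m.val.testBit a = false) →
      ∃ x y z : B, m.val.testBit (t x) = true ∧ m.val.testBit (t y) = true ∧ m.val.testBit (t z) = true ∧
        m.val.testBit (t (x - y + z)) = false) : Prim t := by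
  classical
  constructor
  · intro i
    refine ⟨h1 i, ?_⟩
    intro x hx y hy z hz
    have e1 : t x = i := hx
    have e2 : t y = i := hy
    have e3 : t z = i := hz
    show t (x - y + z) = i
    rw [h2 x y z (e1.trans e2.symm) (e3.trans e2.symm), e2]
  · rintro J ⟨a, ha, b, hb, hab⟩ ⟨c, hc⟩ ⟨-, hJ⟩
    set m : ℕ := Nat.ofBits (fun i : Fin N => decide (i ∈ J)) with hm
    have hbit : ∀ i : Fin N, m.testBit i = decide (i ∈ J) := by
      intro i
      rw [hm, Nat.testBit_ofBits_lt _ _ i.2]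
    obtain ⟨x, y, z, g1, g2, g3, g4⟩ := h3 ⟨m, Nat.ofBits_lt_two_pow _⟩
      ⟨a, b, hab, by rw [hbit]; simpa using ha, by rw [hbit]; simpa using hb⟩ ⟨c, by rw [hbit]; simpa using hc⟩
    simp only [hbit, decide_eq_true_eq, decide_eq_false_iff_not] at g1 g2 g3 g4
    exact g4 (hJ x g1 y g2 z g3)

theorem prim_equiv {B ι ι' : Type*} [AddCommGroup B] (e : ι ≃ ι') (t : B → ι) (h : Prim t) :
    Prim (fun x => e (t x)) := by
  constructor
  · intro i
    have := h.1 (e.symm i)
    have hs : {x | e (t x) = i} = {x | t x = e.symm i} := by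
      ext x
      exact (Equiv.eq_symm_apply e).symm
    rw [hs]; exact this
  · rintro J ⟨a, ha, b, hb, hab⟩ ⟨c, hc⟩ hJ
    refine h.2 {i | e i ∈ J} ⟨e.symm a, by simpa using ha, e.symm b, by simpa using hb, fun hh => hab (e.symm.injective hh)⟩
      ⟨e.symm c, by simpa using hc⟩ hJ

/-- splitting off the last two labels -/
def spl (k : ℕ) : Fin (k + 2) ≃ Fin k ⊕ Bool :=
  finSumFinEquiv.symm.trans (Equiv.sumCongr (Equiv.refl _) finTwoEquiv)

abbrev B3 := ZMod 2 × ZMod 2 × ZMod 2

abbrev B4 := ZMod 2 × ZMod 2 × ZMod 2 × ZMod 2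

/-- four lines of `F_2^3` with different directions: {0,7}, {4,5}, {2,6}, {1,3} -/
def t3 (x : B3) : Fin 4 :=
  (![0, 3, 2, 3, 1, 1, 2, 0] : Fin 8 → Fin 4) (Fin.ofNat 8 (x.1.val * 4 + x.2.1.val * 2 + x.2.2.val))

/-- the other pairing: {0,7}, {4,5}, {1,2}, {3,6} -/
def t3' (x : B3) : Fin 4 :=
  (![0, 2, 2, 3, 1, 1, 3, 0] : Fin 8 → Fin 4) (Fin.ofNat 8 (x.1.val * 4 + x.2.1.val * 2 + x.2.2.val))

/-- a plane and six lines of `F_2^4` with different directions -/
def t4 (x : B4) : Fin 7 :=
  (![0, 0, 0, 0, 5, 5, 1, 2, 1, 6, 2, 3, 6, 4, 4, 3] : Fin 16 → Fin 7)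
    (Fin.ofNat 16 (x.1.val * 8 + x.2.1.val * 4 + x.2.2.1.val * 2 + x.2.2.2.val))

/-- the other pairing -/
def t4' (x : B4) : Fin 7 :=
  (![0, 0, 0, 0, 5, 6, 1, 2, 1, 6, 2, 3, 5, 4, 4, 3] : Fin 16 → Fin 7)
    (Fin.ofNat 16 (x.1.val * 8 + x.2.1.val * 4 + x.2.2.1.val * 2 + x.2.2.2.val))

theorem prim_t3 : Prim t3 := prim_of_check 4 t3 (by decide +kernel) (by decide +kernel) (by decide +kernel)

theorem prim_t3' : Prim t3' := prim_of_check 4 t3' (by decide +kernel) (by decide +kernel) (by decide +kernel)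

theorem prim_t4 : Prim t4 := prim_of_check 7 t4 (by decide +kernel) (by decide +kernel) (by decide +kernel)

theorem prim_t4' : Prim t4' := prim_of_check 7 t4' (by decide +kernel) (by decide +kernel) (by decide +kernel)

theorem same3 : ∀ (x : B3) (a : Fin 2), spl 2 (t3 x) = Sum.inl a ↔ spl 2 (t3' x) = Sum.inl a := by decide +kernel

theorem same4 : ∀ (x : B4) (a : Fin 5), spl 5 (t4 x) = Sum.inl a ↔ spl 5 (t4' x) = Sum.inl a := by decide +kernel

theorem par3 : ∀ b b' : Bool, ∃ x y z : B3, spl 2 (t3 x) = Sum.inr b ∧ spl 2 (t3 y) = Sum.inr b ∧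
    spl 2 (t3' z) = Sum.inr b' ∧ spl 2 (t3' (x - y + z)) ≠ Sum.inr b' := by decide +kernel

theorem par4 : ∀ b b' : Bool, ∃ x y z : B4, spl 5 (t4 x) = Sum.inr b ∧ spl 5 (t4 y) = Sum.inr b ∧
    spl 5 (t4' z) = Sum.inr b' ∧ spl 5 (t4' (x - y + z)) ≠ Sum.inr b' := by decide +kernel

/-- For every positive integer `n` there are a dimension `d ≥ 1` and a primitive lattice tiling of `ℤ^d` with exactly
`n` lattice translates. -/
theorem result : ∀ n : ℕ, 1 ≤ n → ∃ d : ℕ, 1 ≤ d ∧ ∃ (v : Fin n → Fin d → ℤ) (L : Fin n → AddSubgroup (Fin d → ℤ)),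
    IsTiling v L ∧ ¬ Splits v L := by
  intro n hn
  have fin : ∀ (G ι : Type) [AddCommGroup G] [Finite G] [Fintype ι] (lab : G → ι), Prim lab → Fintype.card ι = n →
      ∃ d : ℕ, 1 ≤ d ∧ ∃ (v : Fin n → Fin d → ℤ) (L : Fin n → AddSubgroup (Fin d → ℤ)),
        IsTiling v L ∧ ¬ Splits v L := by
    intro G ι _ _ _ lab hp hc
    subst hc
    exact tiling_of_prim lab hp
  have hprime : n.Prime → ∃ d : ℕ, 1 ≤ d ∧ ∃ (v : Fin n → Fin d → ℤ) (L : Fin n → AddSubgroup (Fin d → ℤ)),
      IsTiling v L ∧ ¬ Splits v L := by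
    intro hp
    have : Fact n.Prime := ⟨hp⟩
    have : NeZero n := ⟨hp.ne_zero⟩
    exact fin (ZMod n) (ZMod n) _ (prim_prime n) (ZMod.card n)
  rcases Nat.even_or_odd n with he | ho
  · rcases Nat.lt_or_ge n 4 with h4 | h4
    · have : n = 2 := by
        obtain ⟨k, hk⟩ := he
        omega
      exact hprime (this ▸ Nat.prime_two)
    · obtain ⟨k, hk⟩ := he
      have : NeZero (k - 1) := ⟨by omega⟩
      have hp := prim_layer (fun x : B3 => spl 2 (t3 x)) (fun x : B3 => spl 2 (t3' x)) (prim_equiv _ _ prim_t3)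
        (prim_equiv _ _ prim_t3') same3 (fun b b' h => by
          obtain ⟨x, y, z, h1, h2, h3, h4⟩ := par3 b b'
          exact h4 (h x y z h1 h2 h3)) (k - 1)
      refine fin (B3 × ZMod (k - 1)) (Fin 2 ⊕ (ZMod (k - 1) × Bool)) _ hp ?_
      rw [Fintype.card_sum, Fintype.card_prod, ZMod.card, Fintype.card_fin, Fintype.card_bool]
      omega
  · rcases Nat.lt_or_ge n 7 with h7 | h7
    · obtain ⟨k, hk⟩ := ho
      have : n = 1 ∨ n = 3 ∨ n = 5 := by omega
      rcases this with h | h | h
      · exact fin (ZMod 1) Unit _ prim_one (by rw [h]; rfl)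
      · exact hprime (h ▸ Nat.prime_three)
      · exact hprime (h ▸ Nat.prime_five)
    · obtain ⟨k, hk⟩ := ho
      have : NeZero (k - 2) := ⟨by omega⟩
      have hp := prim_layer (fun x : B4 => spl 5 (t4 x)) (fun x : B4 => spl 5 (t4' x)) (prim_equiv _ _ prim_t4)
        (prim_equiv _ _ prim_t4') same4 (fun b b' h => by
          obtain ⟨x, y, z, h1, h2, h3, h4⟩ := par4 b b'
          exact h4 (h x y z h1 h2 h3)) (k - 2)
      refine fin (B4 × ZMod (k - 2)) (Fin 5 ⊕ (ZMod (k - 2) × Bool)) _ hp ?_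
      rw [Fintype.card_sum, Fintype.card_prod, ZMod.card, Fintype.card_fin, Fintype.card_bool]
      omega

end Pool.Agent.Results.MP_f7d7fe_co.AllN
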